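import Pool.Agent.Lib.MP_ef18bd_co.G5.Fin
import Pool.Agent.Lib.MP_ef18bd_co.X.Petersen

/-!
# Upper minus domination against upper signed domination in cubic graphs of girth at least five
-/

namespace Pool.Agent.Results.MP_ef18bd_co.GirthFive

open EF18

theorem result :
    (∀ (V : Type) [Fintype V] [DecidableEq V] (G : SimpleGraph V) [DecidableRel G.Adj],
      G.IsRegularOfDegree 3 → 5 ≤ G.egirth → upperMinus G ≤ upperSigned G) ∧
    Pet.IsRegularOfDegree 3 ∧ 5 ≤ Pet.egirth ∧ upperMinus Pet < upperSigned Pet :=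
  ⟨fun V _ _ G _ hG hg => finalJ_g5 chainGf V G hG hg, pet_cubic, pet_girth, pet_lt⟩

end Pool.Agent.Results.MP_ef18bd_co.GirthFive
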