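import Pool.Agent.Lib.MP_ef18bd_co.R80.End
import Pool.Agent.Lib.MP_ef18bd_co.R80T.Fin

/-!
# Upper minus domination against upper signed domination in triangle-free cubic graphs
-/

namespace Pool.Agent.Results.MP_ef18bd_co.TriangleFreeEightieth

open EF18

theorem result (V : Type) [Fintype V] [DecidableEq V] (G : SimpleGraph V) [DecidableRel G.Adj]
    (hG : G.IsRegularOfDegree 3) (ht : G.CliqueFree 3) :
    80 * upperMinus G ≤ 80 * upperSigned G + Fintype.card V +
      72 * Nat.card {k : G.ConnectedComponent // 24 ≤ Nat.card k.supp} :=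
  EF18.P80.final80_tf EF18.P80.chainGt V G hG ht

end Pool.Agent.Results.MP_ef18bd_co.TriangleFreeEightieth
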