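import Pool.Agent.Lib.MP_ef18bd_co.Trans
import Pool.Agent.Lib.MP_ef18bd_co.R78.End
import Pool.Agent.Lib.MP_ef18bd_co.R78G.Fin

/-!
# Upper minus domination against upper signed domination in cubic graphs
-/

namespace Pool.Agent.Results.MP_ef18bd_co.UpToFiftySecond

open EF18

theorem result (V : Type) [Fintype V] [DecidableEq V] (G : SimpleGraph V) [DecidableRel G.Adj]
    (hG : G.IsRegularOfDegree 3) :
    156 * upperMinus G ≤ 156 * upperSigned G + 3 * Fintype.card V +
      140 * Nat.card {k : G.ConnectedComponent // 24 ≤ Nat.card k.supp} ∧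
    12 * upperMinus G ≤ 5 * upperSigned G + 4 * Fintype.card V ∧
    24 * upperMinus G ≤ 24 * upperSigned G + Fintype.card V ∧
    (upperSigned G < upperMinus G →
      24 ≤ Fintype.card V ∧ (Fintype.card V : ℤ) ≤ 2 * upperSigned G ∧
        7 * upperMinus G < 4 * Fintype.card V) := by
  obtain ⟨h1, h2, h3⟩ := main_bounds hG
  refine ⟨EF18.P78.final78 EF18.P78.chainGh V G hG, h2, h1, fun h => ⟨?_, h3, ?_⟩⟩
  · have : (24 : ℤ) ≤ Fintype.card V := by omega
    exact_mod_cast this
  · omega

end Pool.Agent.Results.MP_ef18bd_co.UpToFiftySecond
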